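import Mathlib
import Pool.Agent.H528R3.StairsB

/-!
# MP_1da119_pr: the random walk on stairs can be made to diverge almost surely

The walk of Latuszynski, Roberts and Rosenthal: at every site of the stair the FORWARD neighbour
is proposed with probability `1/2 + 4/a_t`, and the proposal is accepted with the Gibbs probability
`π(y)/(π(y)+π(x))`.
-/

set_option autoImplicit false

namespace Pool.Agent.Results.MP_1da119_pr.StairsDivergence

open MeasureTheory ProbabilityTheory Filter Topology

noncomputable section

/-- The stair `{(i,j) : i = j or i = j+1}` inside `{1,2,…}²`. -/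
def stair : Set (ℕ × ℕ) := {x | 1 ≤ x.1 ∧ 1 ≤ x.2 ∧ (x.1 = x.2 ∨ x.1 = x.2 + 1)}

open Classical in
/-- The unnormalised target: `j⁻²` at the points `(i,j)` of the stair, `0` elsewhere. -/
def weight (x : ℕ × ℕ) : ℝ := if x ∈ stair then 1 / (x.2 : ℝ)^2 else 0

/-- The target probability `π` on the stair, `π(i,j) ∝ j⁻²` (and `0` off the stair). -/
def target (x : ℕ × ℕ) : ℝ := weight x / ∑' y, weight y

/-- The forward neighbour: `(j+1,j)` for `(j,j)` and `(j+1,j+1)` for `(j+1,j)`. -/
def forward (x : ℕ × ℕ) : ℕ × ℕ := if x.1 = x.2 then (x.1 + 1, x.2) else (x.1, x.2 + 1)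

/-- The backward neighbour: `(j,j-1)` for `(j,j)` and `(j,j)` for `(j+1,j)`. -/
def backward (x : ℕ × ℕ) : ℕ × ℕ := if x.1 = x.2 then (x.1, x.2 - 1) else (x.1 - 1, x.2)

/-- The acceptance probability `π(y) / (π(y) + π(x))`. -/
def accept (x y : ℕ × ℕ) : ℝ := target y / (target y + target x)

/-- One step of the walk with parameter `a`, from `x`, driven by two uniform variables:
the first one makes the proposal (forward with probability `1/2 + 4/a`, backward otherwise),
the second one the acceptance decision. -/
def step (a : ℝ) (x : ℕ × ℕ) (u : ℝ × ℝ) : ℕ × ℕ :=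
  let y := if u.1 < 1/2 + 4/a then forward x else backward x
  if u.2 < accept x y then y else x

/-- The walk started at `(1,1)`; step `t` uses the parameter `a t` and the noise `ω t`. -/
def walk (a : ℕ → ℝ) (ω : ℕ → ℝ × ℝ) : ℕ → ℕ × ℕ
  | 0 => (1, 1)
  | t+1 => step (a (t+1)) (walk a ω t) (ω (t+1))

/-- The law of a pair of independent uniform variables on `[0,1]`. -/
def unif2 : Measure (ℝ × ℝ) :=
  (volume.restrict (Set.Icc (0:ℝ) 1)).prod (volume.restrict (Set.Icc (0:ℝ) 1))

/-- The law of the noise: independent pairs of independent uniform variables on `[0,1]`. -/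
def noise : Measure (ℕ → ℝ × ℝ) := Measure.infinitePi fun _ => unif2

/-! ### the target -/

theorem weight_nonneg (x : ℕ × ℕ) : 0 ≤ weight x := by
  unfold weight; split_ifs <;> positivity

theorem weight_of_mem {x : ℕ × ℕ} (h : x ∈ stair) : weight x = 1 / (x.2:ℝ)^2 := by
  unfold weight; rw [if_pos h]

theorem weight_of_notMem {x : ℕ × ℕ} (h : x ∉ stair) : weight x = 0 := by
  unfold weight; rw [if_neg h]

theorem weight_diag (j : ℕ) (hj : 1 ≤ j) : weight (j, j) = 1 / (j:ℝ)^2 :=
  weight_of_mem ⟨hj, hj, Or.inl rfl⟩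

theorem weight_off (j : ℕ) (hj : 1 ≤ j) : weight (j+1, j) = 1 / (j:ℝ)^2 :=
  weight_of_mem ⟨by simp, hj, Or.inr rfl⟩

theorem weight_summable : Summable weight := by
  have hs : Summable fun j : ℕ => 1 / (j:ℝ)^2 := Real.summable_one_div_nat_pow.2 (by norm_num)
  have h1 : Summable (fun x : ℕ × ℕ => if x.1 = x.2 then 1 / (x.2:ℝ)^2 else 0) := by
    have hinj : Function.Injective (fun j : ℕ => ((j, j) : ℕ × ℕ)) := fun i j h => (Prod.mk.inj h).1
    rw [← hinj.summable_iff]
    · simpa only [Function.comp_def, if_true] using hs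
    · intro x hx
      rw [if_neg]
      intro h
      exact hx ⟨x.1, by ext <;> simp [h]⟩
  have h2 : Summable (fun x : ℕ × ℕ => if x.1 = x.2 + 1 then 1 / (x.2:ℝ)^2 else 0) := by
    have hinj : Function.Injective (fun j : ℕ => ((j+1, j) : ℕ × ℕ)) := fun i j h => (Prod.mk.inj h).2
    rw [← hinj.summable_iff]
    · simpa only [Function.comp_def, if_true] using hs
    · intro x hx
      rw [if_neg]
      intro h
      exact hx ⟨x.2, by ext <;> simp [h]⟩
  refine Summable.of_nonneg_of_le weight_nonneg (fun x => ?_) (h1.add h2)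
  by_cases hx : x ∈ stair
  · rw [weight_of_mem hx]
    obtain ⟨_, _, h | h⟩ := hx
    · rw [if_pos h]
      have : 0 ≤ (if x.1 = x.2 + 1 then 1 / (x.2:ℝ)^2 else 0) := by split_ifs <;> positivity
      linarith
    · rw [if_pos h]
      have : 0 ≤ (if x.1 = x.2 then 1 / (x.2:ℝ)^2 else 0) := by split_ifs <;> positivity
      linarith
  · rw [weight_of_notMem hx]
    positivity

theorem total_pos : 0 < ∑' y, weight y := by
  have h1 : weight (1,1) ≤ ∑' y, weight y :=
    weight_summable.le_tsum (1,1) fun y _ => weight_nonneg y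
  have h2 : weight (1,1) = 1 := by rw [weight_diag 1 le_rfl]; norm_num
  linarith

theorem accept_eq (x y : ℕ × ℕ) : accept x y = weight y / (weight y + weight x) := by
  unfold accept target
  have h := total_pos.ne'
  rw [← add_div, div_div_div_cancel_right₀ h]

theorem accept_nonneg (x y : ℕ × ℕ) : 0 ≤ accept x y := by
  rw [accept_eq]
  exact div_nonneg (weight_nonneg y) (add_nonneg (weight_nonneg y) (weight_nonneg x))

theorem accept_le_one (x y : ℕ × ℕ) : accept x y ≤ 1 := by
  rw [accept_eq]
  apply div_le_one_of_le₀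
  · linarith [weight_nonneg x]
  · exact add_nonneg (weight_nonneg y) (weight_nonneg x)

/-! ### the noise -/

theorem unif_integral (c : ℝ) (h0 : 0 ≤ c) (h1 : c ≤ 1) (α β : ℝ) :
    ∫ u in Set.Icc (0:ℝ) 1, (if u < c then α else β) = c * α + (1 - c) * β := by
  have e : (fun u : ℝ => if u < c then α else β)
      = fun u => (Set.Iio c).indicator (fun _ => α - β) u + β := by
    ext u
    by_cases h : u < c
    · rw [if_pos h, Set.indicator_of_mem (by exact h)]; ring
    · rw [if_neg h, Set.indicator_of_notMem (by exact h)]; ring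
  rw [e, integral_add, integral_indicator measurableSet_Iio, Measure.restrict_restrict measurableSet_Iio]
  · simp only [integral_const, smul_eq_mul, MeasurableSet.univ, measureReal_restrict_apply,
      Set.univ_inter]
    have e1 : Set.Iio c ∩ Set.Icc (0:ℝ) 1 = Set.Ico 0 c := by
      ext u
      simp only [Set.mem_inter_iff, Set.mem_Iio, Set.mem_Icc, Set.mem_Ico]
      constructor
      · rintro ⟨h, h', _⟩; exact ⟨h', h⟩
      · rintro ⟨h, h'⟩; exact ⟨h', h, by linarith⟩
    rw [e1]
    rw [measureReal_def, measureReal_def, Real.volume_Ico, Real.volume_Icc,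
      ENNReal.toReal_ofReal (by linarith), ENNReal.toReal_ofReal (by norm_num)]
    ring
  · exact (integrable_const _).indicator measurableSet_Iio
  · exact integrable_const _

instance : IsProbabilityMeasure (volume.restrict (Set.Icc (0:ℝ) 1)) := ⟨by simp⟩

instance : IsProbabilityMeasure unif2 := by unfold unif2; infer_instance

instance : IsProbabilityMeasure noise := by unfold noise; infer_instance

theorem step_measurable (a : ℝ) : Measurable (fun p : (ℕ × ℕ) × (ℝ × ℝ) => step a p.1 p.2) := by
  apply measurable_from_prod_countable_right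
  intro x
  unfold step
  simp only
  have h1 : MeasurableSet {u : ℝ × ℝ | u.1 < 1/2 + 4/a} := measurableSet_lt measurable_fst measurable_const
  have h2 : ∀ c : ℝ, MeasurableSet {u : ℝ × ℝ | u.2 < c} := fun c =>
    measurableSet_lt measurable_snd measurable_const
  have e : (fun u : ℝ × ℝ => if u.2 < accept x (if u.1 < 1/2 + 4/a then forward x else backward x)
      then (if u.1 < 1/2 + 4/a then forward x else backward x) else x)
      = fun u => if u.1 < 1/2 + 4/a then (if u.2 < accept x (forward x) then forward x else x)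
        else (if u.2 < accept x (backward x) then backward x else x) := by
    ext u : 1
    by_cases h : u.1 < 1/2 + 4/a
    · simp only [if_pos h]
    · simp only [if_neg h]
  rw [e]
  exact Measurable.ite h1 (Measurable.ite (h2 _) measurable_const measurable_const)
    (Measurable.ite (h2 _) measurable_const measurable_const)

theorem walk_measurable (a : ℕ → ℝ) (t : ℕ) : Measurable (fun ω => walk a ω t) := by
  induction t with
  | zero => exact measurable_const
  | succ t ih =>
    exact (step_measurable (a (t+1))).comp (ih.prodMk (measurable_pi_apply (t+1)))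

theorem walk_congr (a : ℕ → ℝ) (ω ω' : ℕ → ℝ × ℝ) (t : ℕ) (h : ∀ i ≤ t, ω i = ω' i) :
    walk a ω t = walk a ω' t := by
  induction t with
  | zero => rfl
  | succ t ih =>
    show step _ (walk a ω t) (ω (t+1)) = step _ (walk a ω' t) (ω' (t+1))
    rw [ih fun i hi => h i (by omega), h (t+1) le_rfl]

theorem indep (a : ℕ → ℝ) (t : ℕ) :
    IndepFun (fun ω => walk a ω t) (fun ω : ℕ → ℝ × ℝ => ω (t+1)) noise := by
  have h1 : iIndepFun (fun (i : ℕ) (ω : ℕ → ℝ × ℝ) => ω i) noise :=
    iIndepFun_infinitePi (P := fun _ => unif2) (X := fun _ x => x) (fun _ => measurable_id)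
  have h2 := h1.indepFun_finset (Finset.range (t+1)) {t+1} (by simp) (fun i => measurable_pi_apply i)
  have hφ : Measurable (fun z : (Finset.range (t+1)) → ℝ × ℝ =>
      walk a (fun i => if h : i ∈ Finset.range (t+1) then z ⟨i, h⟩ else (0,0)) t) := by
    apply (walk_measurable a t).comp
    apply measurable_pi_lambda
    intro i
    by_cases h : i ∈ Finset.range (t+1)
    · simp only [h, dif_pos]; exact measurable_pi_apply _
    · simp only [h, dif_neg, not_false_eq_true]; exact measurable_const
  have hψ : Measurable (fun z : ({t+1} : Finset ℕ) → ℝ × ℝ =>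
      z ⟨t+1, Finset.mem_singleton_self (t+1)⟩) := measurable_pi_apply _
  have h3 := h2.comp hφ hψ
  have e1 : (fun ω => walk a ω t) = (fun z : (Finset.range (t+1)) → ℝ × ℝ =>
      walk a (fun i => if h : i ∈ Finset.range (t+1) then z ⟨i, h⟩ else (0,0)) t) ∘
      (fun (ω : ℕ → ℝ × ℝ) (i : Finset.range (t+1)) => ω i) := by
    ext ω : 1
    apply walk_congr
    intro i hi
    have : i ∈ Finset.range (t+1) := Finset.mem_range.2 (by omega)
    simp [this]
  rw [e1]
  exact h3

theorem integral_step (a : ℕ → ℝ) (t : ℕ) (g : ℕ × ℕ → ℝ) (C : ℝ) (hg : ∀ x, |g x| ≤ C) :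
    ∫ ω, g (walk a ω (t+1)) ∂noise = ∫ ω, (∫ u, g (step (a (t+1)) (walk a ω t) u) ∂unif2) ∂noise := by
  have hm : Measurable (fun p : (ℕ × ℕ) × (ℝ × ℝ) => g (step (a (t+1)) p.1 p.2)) :=
    (measurable_of_countable g).comp (step_measurable _)
  have hmap : noise.map (fun ω : ℕ → ℝ × ℝ => (walk a ω t, ω (t+1)))
      = (noise.map (fun ω => walk a ω t)).prod unif2 := by
    have h := (indepFun_iff_map_prod_eq_prod_map_map (walk_measurable a t).aemeasurable
      (measurable_pi_apply (t+1)).aemeasurable).1 (indep a t)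
    rw [h]
    congr 1
    exact (measurePreserving_eval_infinitePi (fun _ : ℕ => unif2) (t+1)).map_eq
  have hprob : IsProbabilityMeasure (noise.map (fun ω => walk a ω t)) :=
    Measure.isProbabilityMeasure_map (walk_measurable a t).aemeasurable
  calc ∫ ω, g (walk a ω (t+1)) ∂noise
      = ∫ ω, (fun p : (ℕ × ℕ) × (ℝ × ℝ) => g (step (a (t+1)) p.1 p.2)) (walk a ω t, ω (t+1)) ∂noise := rfl
    _ = ∫ p, g (step (a (t+1)) p.1 p.2) ∂(noise.map (fun ω : ℕ → ℝ × ℝ => (walk a ω t, ω (t+1)))) := by
        rw [integral_map]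
        · exact ((walk_measurable a t).prodMk (measurable_pi_apply (t+1))).aemeasurable
        · exact hm.aestronglyMeasurable
    _ = ∫ x, ∫ u, g (step (a (t+1)) x u) ∂unif2 ∂(noise.map (fun ω => walk a ω t)) := by
        rw [hmap, integral_prod]
        refine Integrable.of_bound hm.aestronglyMeasurable C (Eventually.of_forall fun p => ?_)
        exact hg _
    _ = _ := by
        rw [integral_map (walk_measurable a t).aemeasurable]
        exact (measurable_of_countable _).aestronglyMeasurable

theorem one_step (a : ℝ) (ha : 8 ≤ a) (x : ℕ × ℕ) (g : ℕ × ℕ → ℝ) :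
    ∫ u, g (step a x u) ∂unif2 =
      (1/2+4/a) * (accept x (forward x) * g (forward x) + (1 - accept x (forward x)) * g x)
      + (1/2-4/a) * (accept x (backward x) * g (backward x) + (1 - accept x (backward x)) * g x) := by
  have hm : Measurable (fun u : ℝ × ℝ => g (step a x u)) :=
    (measurable_of_countable g).comp ((step_measurable a).comp (measurable_const.prodMk measurable_id))
  have h4 : 4/a ≤ 1/2 := by rw [div_le_iff₀ (by linarith)]; linarith
  have h40 : 0 ≤ 4/a := by positivity
  have hbd : ∀ u : ℝ × ℝ, |g (step a x u)| ≤ |g (forward x)| + |g (backward x)| + |g x| := by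
    intro u
    unfold step
    simp only
    have := abs_nonneg (g (forward x))
    have := abs_nonneg (g (backward x))
    have := abs_nonneg (g x)
    split_ifs <;> linarith
  unfold unif2
  rw [integral_prod]
  · have inner : ∀ s : ℝ, ∫ v in Set.Icc (0:ℝ) 1, g (step a x (s, v)) =
        if s < 1/2 + 4/a then
          (accept x (forward x) * g (forward x) + (1 - accept x (forward x)) * g x)
        else (accept x (backward x) * g (backward x) + (1 - accept x (backward x)) * g x) := by
      intro s
      by_cases h : s < 1/2 + 4/a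
      · rw [if_pos h]
        rw [← unif_integral _ (accept_nonneg x (forward x)) (accept_le_one x (forward x))]
        apply integral_congr_ae
        refine Eventually.of_forall fun v => ?_
        simp only [step, if_pos h]
        split_ifs <;> rfl
      · rw [if_neg h]
        rw [← unif_integral _ (accept_nonneg x (backward x)) (accept_le_one x (backward x))]
        apply integral_congr_ae
        refine Eventually.of_forall fun v => ?_
        simp only [step, if_neg h]
        split_ifs <;> rfl
    simp_rw [inner]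
    rw [unif_integral _ (by linarith) (by linarith)]
    ring
  · exact Integrable.of_bound hm.aestronglyMeasurable _ (Eventually.of_forall hbd)

/-! ### reduction to the index -/

/-- the index of a site along the stair -/
def idx (x : ℕ × ℕ) : ℕ := x.1 + x.2 - 2

open Pool.Agent.H528R3.Stairs in
theorem one_step_idx (a : ℝ) (ha : 8 ≤ a) (x : ℕ × ℕ) (hx : x ∈ stair) (G : ℕ → ℝ) :
    ∫ u, G (idx (step a x u)) ∂unif2 = T (4/a) G (idx x) := by
  rw [one_step a ha x (fun y => G (idx y)), T_eq]
  obtain ⟨i, j⟩ := x
  obtain ⟨h1, h2, h3⟩ := hx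
  simp only at h1 h2 h3
  obtain ⟨n, rfl⟩ : ∃ n, j = n + 1 := ⟨j-1, by omega⟩
  have hn0 : (0:ℝ) ≤ n := Nat.cast_nonneg n
  rcases h3 with rfl | rfl
  · -- diagonal point
    have hf : forward (n+1, n+1) = (n+1+1, n+1) := by simp [forward]
    have hbk : backward (n+1, n+1) = (n+1, n) := by simp [backward]
    have i0 : idx (n+1, n+1) = n + n := by simp only [idx]; omega
    have i1 : idx (n+1+1, n+1) = n + n + 1 := by simp only [idx]; omega
    have i2 : idx (n+1, n) = n + n - 1 := by simp only [idx]; omega
    have hev : Even (n + n) := ⟨n, rfl⟩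
    have hA : A (n+n) = 1/2 := by unfold A; rw [if_pos hev]
    have af : accept (n+1, n+1) (n+1+1, n+1) = 1/2 := by
      rw [accept_eq, weight_off (n+1) (by omega), weight_diag (n+1) (by omega)]
      have : (1:ℝ) / ((n+1:ℕ):ℝ)^2 ≠ 0 := by positivity
      field_simp
      ring
    have ab : accept (n+1, n+1) (n+1, n) = B (n+n) := by
      rw [accept_eq, weight_diag (n+1) (by omega)]
      rcases Nat.eq_zero_or_pos n with rfl | hn
      · rw [weight_of_notMem (by simp [stair])]; simp [B]
      · rw [weight_off n hn]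
        unfold B
        rw [if_neg (by omega), if_pos hev]
        have hd : (n+n)/2 = n := by omega
        rw [hd]
        have hnp : (0:ℝ) < n := by exact_mod_cast hn
        push_cast
        field_simp
    rw [hf, hbk, i0, i1, i2, hA, af, ab]
    ring
  · have hf : forward (n+1+1, n+1) = (n+1+1, n+1+1) := by simp [forward]
    have hbk : backward (n+1+1, n+1) = (n+1, n+1) := by simp [backward]
    have i0 : idx (n+1+1, n+1) = 2*n+1 := by simp only [idx]; omega
    have i1 : idx (n+1+1, n+1+1) = 2*n+1+1 := by simp only [idx]; omega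
    have i2 : idx (n+1, n+1) = 2*n+1-1 := by simp only [idx]; omega
    have hodd : ¬ Even (2*n+1) := by rw [Nat.not_even_iff_odd]; exact ⟨n, rfl⟩
    have hB : B (2*n+1) = 1/2 := by unfold B; rw [if_neg (by omega), if_neg hodd]
    have ab : accept (n+1+1, n+1) (n+1, n+1) = 1/2 := by
      rw [accept_eq, weight_off (n+1) (by omega), weight_diag (n+1) (by omega)]
      have : (1:ℝ) / ((n+1:ℕ):ℝ)^2 ≠ 0 := by positivity
      field_simp
      ring
    have af : accept (n+1+1, n+1) (n+1+1, n+1+1) = A (2*n+1) := by
      rw [accept_eq, weight_off (n+1) (by omega), weight_diag (n+1+1) (by omega)]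
      unfold A
      rw [if_neg hodd]
      have hd : (2*n+1)/2 = n := by omega
      rw [hd]
      push_cast
      have : (n:ℝ)+1+1 = n+2 := by ring
      rw [this]
      field_simp
    rw [hf, hbk, i0, i1, i2, hB, af, ab]
    ring

theorem step_mem (a : ℝ) (x : ℕ × ℕ) (hx : x ∈ stair) (u : ℝ × ℝ) (hu : 0 ≤ u.2) :
    step a x u ∈ stair := by
  unfold step
  simp only
  generalize (if u.1 < 1/2 + 4/a then forward x else backward x) = y
  by_cases h : u.2 < accept x y
  · rw [if_pos h]
    by_contra hy
    rw [accept_eq, weight_of_notMem hy] at h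
    simp at h
    linarith
  · rw [if_neg h]; exact hx

theorem walk_mem (a : ℕ → ℝ) (ω : ℕ → ℝ × ℝ) (hω : ∀ i, 0 ≤ (ω i).2) (t : ℕ) :
    walk a ω t ∈ stair := by
  induction t with
  | zero => exact ⟨le_rfl, le_rfl, Or.inl rfl⟩
  | succ t ih => exact step_mem _ _ ih _ (hω _)

theorem noise_nonneg : ∀ᵐ ω ∂noise, ∀ i, 0 ≤ (ω i).2 := by
  rw [ae_all_iff]
  intro i
  have h1 : ∀ᵐ u ∂unif2, 0 ≤ u.2 := by
    have : ∀ᵐ v ∂(volume.restrict (Set.Icc (0:ℝ) 1)), 0 ≤ v := by
      filter_upwards [ae_restrict_mem measurableSet_Icc] with v hv using hv.1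
    exact Measure.quasiMeasurePreserving_snd.ae this
  exact (measurePreserving_eval_infinitePi (fun _ : ℕ => unif2) i).quasiMeasurePreserving.ae h1

open Pool.Agent.H528R3.Stairs in
theorem integral_eq_Q (a : ℕ → ℝ) (ha : ∀ t, 8 ≤ a t) (t : ℕ) (G : ℕ → ℝ) (C : ℝ)
    (hG : ∀ m, 0 ≤ G m) (hC : ∀ m, G m ≤ C) :
    ∫ ω, G (idx (walk a ω t)) ∂noise = Q (fun t => 4 / a (t+1)) t G := by
  induction t generalizing G with
  | zero =>
    simp [walk, idx, Q]
  | succ t ih =>
    have hb0 : 0 ≤ 4 / a (t+1) := by have := ha (t+1); positivity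
    have hb1 : 4 / a (t+1) ≤ 1/2 := by
      have := ha (t+1)
      rw [div_le_iff₀ (by linarith)]; linarith
    rw [integral_step a t (fun x => G (idx x)) C (fun x => by
      rw [abs_of_nonneg (hG _)]; exact hC _)]
    show _ = Q (fun t => 4 / a (t+1)) t (T (4 / a (t+1)) G)
    rw [← ih (T (4 / a (t+1)) G)]
    · apply integral_congr_ae
      filter_upwards [noise_nonneg] with ω hω
      exact one_step_idx _ (ha _) _ (walk_mem a ω hω t) G
    · intro m
      have := T_mono hb0 hb1 hG m
      rw [T_const] at this
      exact this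
    · intro m
      have := T_mono hb0 hb1 hC m
      rw [T_const] at this
      exact this

/-- The parameter sequence: `a t = 8 (k+1)` in phase `k`. -/
def aseq (t : ℕ) : ℝ := 8 * ((Pool.Agent.H528R3.Stairs.phase (t-1) : ℝ) + 1)

open Pool.Agent.H528R3.Stairs in
theorem aseq_beta (t : ℕ) : 4 / aseq (t+1) = Pool.Agent.H528R3.Stairs.beta t := by
  unfold aseq Pool.Agent.H528R3.Stairs.beta bk
  rw [Nat.add_sub_cancel]
  have : (0:ℝ) ≤ (phase t : ℝ) := Nat.cast_nonneg _
  field_simp
  norm_num

open Pool.Agent.H528R3.Stairs in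
theorem ae_eventually (N : ℕ) : ∀ᵐ ω ∂noise, ∀ᶠ t in atTop, N < idx (walk aseq ω t) := by
  have ha : ∀ t, 8 ≤ aseq t := by
    intro t
    unfold aseq
    have : (0:ℝ) ≤ (phase (t-1) : ℝ) := Nat.cast_nonneg _
    linarith
  have hmeas : ∀ t, MeasurableSet {ω | idx (walk aseq ω t) ≤ N} := fun t =>
    ((measurable_of_countable idx).comp (walk_measurable aseq t)) (measurableSet_Iic (a := N))
  have hsum : Summable fun t => noise.real {ω | idx (walk aseq ω t) ≤ N} := by
    apply summable_of_le N _ (fun t => measureReal_nonneg)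
    intro t k
    have hth := th_pos k
    have hth1 := th_lt k
    have hQ := integral_eq_Q aseq ha t (fun m => (1 - bk k)^m) 1 (fun m => (pow_pos hth m).le)
      (fun m => pow_le_one₀ hth.le hth1.le)
    have e : (fun t => 4 / aseq (t+1)) = Pool.Agent.H528R3.Stairs.beta := funext aseq_beta
    rw [e] at hQ
    rw [← hQ]
    have hi : noise.real {ω | idx (walk aseq ω t) ≤ N} * (1 - bk k)^N
        = ∫ ω, ({ω | idx (walk aseq ω t) ≤ N} : Set _).indicator (fun _ => (1 - bk k)^N) ω ∂noise := by
      rw [integral_indicator (hmeas t), integral_const]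
      simp [measureReal_restrict_apply]
    rw [hi]
    apply integral_mono
    · exact (integrable_const _).indicator (hmeas t)
    · refine Integrable.of_bound (C := 1) ?_ (Eventually.of_forall fun ω => ?_)
      · exact ((measurable_of_countable (fun x : ℕ × ℕ => (1 - bk k)^(idx x))).comp
          (walk_measurable aseq t)).aestronglyMeasurable
      · rw [Real.norm_eq_abs, abs_of_nonneg (pow_pos hth _).le]
        exact pow_le_one₀ hth.le hth1.le
    · intro ω
      by_cases h : idx (walk aseq ω t) ≤ N
      · rw [Set.indicator_of_mem (by exact h)]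
        exact pow_le_pow_of_le_one hth.le hth1.le h
      · rw [Set.indicator_of_notMem (by exact h)]
        exact (pow_pos hth _).le
  have hne : ∑' t, noise {ω | idx (walk aseq ω t) ≤ N} ≠ ⊤ := by
    have : ∀ t, noise {ω | idx (walk aseq ω t) ≤ N}
        = ENNReal.ofReal (noise.real {ω | idx (walk aseq ω t) ≤ N}) := fun t => by
      rw [measureReal_def, ENNReal.ofReal_toReal (measure_ne_top _ _)]
    simp_rw [this]
    exact hsum.tsum_ofReal_ne_top
  filter_upwards [ae_eventually_notMem hne] with ω hω
  filter_upwards [hω] with t ht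
  simpa using ht

/-- **MP_1da119_pr, Q1 (as the field means it).**  There is a deterministic nondecreasing sequence
`a_t ≥ 8`, `a_t → ∞`, for which the random walk on stairs diverges with probability one. -/
theorem result : ∃ a : ℕ → ℝ, Monotone a ∧ (∀ t, 8 ≤ a t) ∧ Tendsto a atTop atTop ∧
    ∀ᵐ ω ∂noise, Tendsto (fun t => (walk a ω t).2) atTop atTop := by
  refine ⟨aseq, ?_, ?_, ?_, ?_⟩
  · intro s t hst
    unfold aseq
    have : (Pool.Agent.H528R3.Stairs.phase (s-1) : ℝ) ≤ Pool.Agent.H528R3.Stairs.phase (t-1) := by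
      exact_mod_cast Pool.Agent.H528R3.Stairs.phase_mono (by omega)
    linarith
  · intro t
    unfold aseq
    have : (0:ℝ) ≤ (Pool.Agent.H528R3.Stairs.phase (t-1) : ℝ) := Nat.cast_nonneg _
    linarith
  · unfold aseq
    apply Tendsto.const_mul_atTop (by norm_num)
    apply tendsto_atTop_add_const_right
    apply tendsto_natCast_atTop_atTop.comp
    exact Pool.Agent.H528R3.Stairs.phase_tendsto.comp (tendsto_sub_atTop_nat 1)
  · have hall : ∀ᵐ ω ∂noise, ∀ N, ∀ᶠ t in atTop, N < idx (walk aseq ω t) :=
      ae_all_iff.2 ae_eventually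
    filter_upwards [hall, noise_nonneg] with ω hω hω2
    rw [tendsto_atTop]
    intro b
    filter_upwards [hω (2*b)] with t ht
    obtain ⟨h1, h2, h3⟩ := walk_mem aseq ω hω2 t
    unfold idx at ht
    rcases h3 with h3 | h3 <;> omega

end

end Pool.Agent.Results.MP_1da119_pr.StairsDivergence
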